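import Pool.Agent.H12.Avg5

namespace Pool.Agent.Results.MP_e8a7ad_pr.Converge

open MeasureTheory ProbabilityTheory Filter Topology
open scoped unitInterval NNReal

/-- vertices of `ℤ^d` -/
abbrev Vx (d : ℕ) : Type := Fin d → ℤ

/-- edges of `ℤ^d`: `(x, i)` joins `x` and `x + e_i` -/
abbrev Ed (d : ℕ) : Type := Vx d × Fin d

/-- the endpoint `x + e_i` of the edge `(x, i)` -/
def hi {d : ℕ} (e : Ed d) : Vx d := e.1 + Pi.single e.2 1

/-- clock data: for each time block `k`, a count for each edge and a sequence of positions in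
`[0,1]` for each edge -/
abbrev Clocks (d : ℕ) : Type := ℕ → (Ed d → ℕ) × (Ed d × ℕ → I)

/-- all counts are i.i.d. Poisson(`r`), all positions i.i.d. uniform, everything independent -/
noncomputable def clockLaw (d : ℕ) (r : ℝ≥0) : Measure (Clocks d) :=
  Measure.infinitePi fun _ => (Measure.infinitePi fun _ => poissonMeasure r).prod
    (Measure.infinitePi fun _ => volume)

/-- The clock of `e` rings at time `t`. In the block `[rk, r(k+1)]` it rings at Poisson(`r`) many
independent uniform times: the block construction of a rate-1 Poisson process. -/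
def Ring {d : ℕ} (r : ℝ) (z : Clocks d) (e : Ed d) (t : ℝ) : Prop :=
  ∃ k j : ℕ, j < (z k).1 e ∧ t = r * (k + ((z k).2 (e, j) : ℝ))

/-- no edge at `v` rings during `A` -/
def Quiet {d : ℕ} (r : ℝ) (z : Clocks d) (v : Vx d) (A : Set ℝ) : Prop :=
  ∀ e : Ed d, e.1 = v ∨ hi e = v → ∀ t ∈ A, ¬ Ring r z e t

/-- `f` follows the edge-averaging dynamics from `g`: a value is unchanged while no edge at the
vertex rings; when `e` rings at `t`, both endpoints take the mean of their values just before `t`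
(the values at any `s < t` with no ring at either endpoint in `(s, t)`). -/
def Sol {d : ℕ} (r : ℝ) (z : Clocks d) (g : Vx d → ℝ) (f : ℝ → Vx d → ℝ) : Prop :=
  f 0 = g ∧ (∀ v s t, 0 ≤ s → s ≤ t → Quiet r z v (Set.Ioc s t) → f t v = f s v) ∧
  ∀ e s t, 0 ≤ s → s < t → Ring r z e t → Quiet r z e.1 (Set.Ioo s t) →
    Quiet r z (hi e) (Set.Ioo s t) →
    f t e.1 = (f s e.1 + f s (hi e)) / 2 ∧ f t (hi e) = (f s e.1 + f s (hi e)) / 2

theorem result (d : ℕ) (r : ℝ≥0) (hr0 : 0 < r) (hr : (r : ℝ) * (64 * (d + 1)) ≤ 1)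
    (lam : Measure (Vx d → ℝ)) [IsProbabilityMeasure lam] (M : ℝ)
    (hb : ∀ᵐ g ∂lam, ∀ v, |g v| ≤ M)
    (hs : ∀ y : Vx d, lam.map (fun g v => g (v + y)) = lam) :
    ∀ᵐ ω ∂lam.prod (clockLaw d r), (∃ f, Sol r ω.2 ω.1 f) ∧
      ∀ f, Sol r ω.2 ω.1 f → ∀ v, ∃ L, Tendsto (fun t => f t v) atTop (𝓝 L) :=
  Pool.Agent.H12.Avg.final hr0 hr lam hb hs

end Pool.Agent.Results.MP_e8a7ad_pr.Converge
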